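import Pool.Agent.Helper42.DB.Goals2

set_option autoImplicit false

/-! Packet LOW of MP_48f005_an: glued periodic orbits give a lower bound. -/

namespace Pool.Agent.Helper42.DB.PkLOW

open Set Filter Topology

theorem thm (S : Sys) : G_FLB S → G_GLUE S → G_UPB S → G_LOW S := by
  intro hF hG hU i uc φc r ω ℓ m hm hr hφ hI hω hω2
  classical
  set P : (ℕ → S.ι) → Prop := Lp S i uc φc r ω ℓ with hP
  set A : Set (Fin (ℓ + 1) → S.ι) := res ℓ '' {w | P w} with hA
  have hcnt : cnt ℓ P = A.ncard := rfl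
  change (cnt ℓ P) ^ m ≤ m * ℓ * fS S (m * ℓ)
  rw [hcnt]
  have hW : ∀ a : A, ∃ w : ℕ → S.ι, P w ∧ res ℓ w = a := fun a => a.2
  choose W hW1 hW2 using hW
  -- the glued orbits
  have hz : ∀ f : Fin m → A, ∃ z : ℕ → St S, (∀ k, Fl (z k) (z (k + 1))) ∧
      (∀ k, z (k + m * ℓ) = z k) ∧
      ∀ (j : Fin m), ∀ k ≤ ℓ, (z (j * ℓ + k)).i = W (f j) k := by
    intro f
    let w : ℕ → ℕ → S.ι := fun j => if h : j < m then W (f ⟨j, h⟩) else fun _ => i
    have hw : ∀ (j : ℕ) (h : j < m), w j = W (f ⟨j, h⟩) := fun j h => dif_pos h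
    obtain ⟨z, h1, h2, h3⟩ := hG i uc φc r ω ℓ m w hm hr hφ hI hω hω2 (by
      intro j hj
      rw [hw j hj]
      exact hW1 _)
    refine ⟨z, h1, h2, fun j k hk => ?_⟩
    rw [h3 j j.2 k hk, hw j j.2]
  choose z hz1 hz2 hz3 using hz
  set O : (Fin m → A) → Set (St S) := fun f => range (z f) with hO
  have hℓ : ∀ f : Fin m → A, 0 < ℓ := fun f => (hW1 (f ⟨0, by omega⟩)).pos
  have hOeq : ∀ f : Fin m → A, O f = z f '' (Finset.range (m * ℓ) : Set ℕ) := by
    intro f
    have hpos : 0 < m * ℓ := Nat.mul_pos (by omega) (hℓ f)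
    have hper : ∀ k q, z f (k + q * (m * ℓ)) = z f k := by
      intro k q
      induction q with
      | zero => simp
      | succ q ih =>
        rw [show k + (q + 1) * (m * ℓ) = (k + q * (m * ℓ)) + m * ℓ by ring, hz2, ih]
    ext x
    constructor
    · rintro ⟨k, rfl⟩
      refine ⟨k % (m * ℓ), ?_, ?_⟩
      · simp [Nat.mod_lt k hpos]
      · rw [← hper (k % (m * ℓ)) (k / (m * ℓ))]
        congr 1
        rw [mul_comm (k / (m * ℓ)) (m * ℓ)]
        exact Nat.mod_add_div k (m * ℓ)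
    · rintro ⟨k, _, rfl⟩
      exact ⟨k, rfl⟩
  have hOfin : ∀ f, (O f).Finite := fun f => by
    rw [hOeq f]
    exact (Finset.finite_toSet _).image _
  have hOcard : ∀ f, (O f).ncard ≤ m * ℓ := by
    intro f
    rw [hOeq f]
    refine (Set.ncard_image_le (Finset.finite_toSet _)).trans ?_
    rw [Set.ncard_coe_finset, Finset.card_range]
  have hOmem : ∀ f, POrb S (O f) ∧ (O f).ncard ≤ m * ℓ := fun f =>
    ⟨⟨z f, m * ℓ, Nat.mul_pos (by omega) (hℓ f), hz1 f, hz2 f, rfl⟩, hOcard f⟩
  -- determinism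
  have hdet : ∀ f f' : Fin m → A, z f 0 = z f' 0 → f = f' := by
    intro f f' h0
    have hk : ∀ k, z f k = z f' k := by
      intro k
      induction k with
      | zero => exact h0
      | succ k ih =>
        have h1 := hz1 f k
        have h2 := hz1 f' k
        rw [← ih] at h2
        exact hF.2.2 _ _ _ h1 h2
    funext j
    apply Subtype.ext
    rw [← hW2 (f j), ← hW2 (f' j)]
    funext k
    show W (f j) k = W (f' j) k
    have hkℓ : (k : ℕ) ≤ ℓ := Nat.lt_succ_iff.1 k.2
    rw [← hz3 f j k hkℓ, ← hz3 f' j k hkℓ, hk]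
  -- counting
  have hfinA : Finite A := inferInstance
  have : Fintype A := Fintype.ofFinite A
  have hT := (hU (m * ℓ)).1
  have hcard : (Finset.univ : Finset (Fin m → A)).card = A.ncard ^ m := by
    rw [Finset.card_univ, Fintype.card_fun, Fintype.card_fin, ← Nat.card_eq_fintype_card,
      Nat.card_coe_set_eq]
  rw [← hcard]
  have h1 : (Finset.univ : Finset (Fin m → A)).card ≤
      (m * ℓ) * ((Finset.univ : Finset (Fin m → A)).image O).card := by
    refine Finset.card_le_mul_card_image _ _ ?_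
    intro o ho
    obtain ⟨f₀, _, rfl⟩ := Finset.mem_image.1 ho
    refine le_trans ?_ (hOcard f₀)
    rw [Set.ncard_eq_toFinset_card (O f₀) (hOfin f₀)]
    refine Finset.card_le_card_of_injOn (fun f => z f 0) ?_ ?_
    · intro f hf
      have hf' : O f = O f₀ := (Finset.mem_filter.1 hf).2
      have : z f 0 ∈ O f := ⟨0, rfl⟩
      rw [hf'] at this
      simpa using this
    · intro f _ f' _ h
      exact hdet f f' h
  have h2 : ((Finset.univ : Finset (Fin m → A)).image O).card ≤ fS S (m * ℓ) := by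
    rw [← Set.ncard_coe_finset]
    refine Set.ncard_le_ncard ?_ hT
    intro o ho
    obtain ⟨f, _, rfl⟩ := Finset.mem_image.1 (Finset.mem_coe.1 ho)
    exact hOmem f
  exact h1.trans (Nat.mul_le_mul_left _ h2)

end Pool.Agent.Helper42.DB.PkLOW
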