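import Mathlib
import Pool.Agent.Helper42.DB.Goals3

set_option autoImplicit false

/-!
# LSIDE: local structure of a dispersing table at a regular boundary point
-/

namespace Pool.Agent.Helper42.DB.PkLSIDE

open Set Filter Topology

lemma dt_tt_tt (a b : ℝ) : dt (tt a) (tt b) = Real.cos (b - a) := by
  simp only [dt, tt_re, tt_im, Real.cos_sub]; ring

/-- Decomposition in the frame at `v`. -/
lemma frame (v : ℝ) (w : ℂ) : w = dt (ee v) w • ee v + dt (tt v) w • tt v := by
  have h := Real.sin_sq_add_cos_sq v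
  apply Complex.ext
  · simp only [dt, Complex.add_re, Complex.smul_re, smul_eq_mul, ee_re, ee_im, tt_re, tt_im]
    linear_combination (-w.re) * h
  · simp only [dt, Complex.add_im, Complex.smul_im, smul_eq_mul, ee_re, ee_im, tt_re, tt_im]
    linear_combination (-w.im) * h

/-- Strict monotonicity of the tangential coordinate. -/
lemma mono (c : Crv) (r0 : ℝ) (h0 : 0 < r0) (hR : ∀ u, r0 ≤ c.R u) (w a b : ℝ)
    (ha : |a - w| ≤ 1) (hb : |b - w| ≤ 1) (hab : a < b) :
    dt (tt w) (c.G a) < dt (tt w) (c.G b) := by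
  have hmono : StrictMonoOn (fun t => dt (tt w) (c.G t)) (Icc (w - 1) (w + 1)) := by
    apply strictMonoOn_of_deriv_pos (convex_Icc _ _)
    · exact (continuous_dt continuous_const c.continuous).continuousOn
    · intro t ht
      rw [interior_Icc] at ht
      have h1 : HasDerivAt (fun t => dt (tt w) (c.G t)) (dt (tt w) ((c.R t : ℝ) • tt t)) t := by
        have h2 := c.der t
        have hre : HasDerivAt (fun t => (c.G t).re) ((c.R t : ℝ) • tt t).re t :=
          Complex.reCLM.hasFDerivAt.comp_hasDerivAt t h2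
        have him : HasDerivAt (fun t => (c.G t).im) ((c.R t : ℝ) • tt t).im t :=
          Complex.imCLM.hasFDerivAt.comp_hasDerivAt t h2
        exact (hre.const_mul _).add (him.const_mul _)
      rw [h1.deriv, dt_smul_right, dt_tt_tt]
      have hpi := Real.pi_gt_three
      apply mul_pos (lt_of_lt_of_le h0 (hR t))
      apply Real.cos_pos_of_mem_Ioo
      constructor <;> linarith [ht.1, ht.2]
  exact hmono ⟨by linarith [(abs_le.mp ha).1], by linarith [(abs_le.mp ha).2]⟩
    ⟨by linarith [(abs_le.mp hb).1], by linarith [(abs_le.mp hb).2]⟩ hab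

lemma inj (c : Crv) (r0 : ℝ) (h0 : 0 < r0) (hR : ∀ u, r0 ≤ c.R u) (v v' : ℝ)
    (ha : |v' - v| ≤ 1) (h : dt (tt v) (c.G v' - c.G v) = 0) : v' = v := by
  rw [dt_sub_right] at h
  rcases lt_trichotomy v' v with h1 | h1 | h1
  · have := mono c r0 h0 hR v v' v ha (by simp) h1
    linarith
  · exact h1
  · have := mono c r0 h0 hR v v v' (by simp) ha h1
    linarith

lemma preconn_cases {Y S : Set ℂ} (hY : IsOpen Y) (hS : IsPreconnected S)
    (hd : ∀ z ∈ S, z ∉ frontier Y) (hne : S.Nonempty) : S ⊆ Y ∨ ∀ z ∈ S, z ∉ Y := by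
  have hcov : S ⊆ Y ∪ (closure Y)ᶜ := by
    intro z hz
    by_cases h : z ∈ closure Y
    · left
      by_contra h2
      apply hd z hz
      rw [hY.frontier_eq]
      exact ⟨h, h2⟩
    · right; exact h
  have hdis : Disjoint Y (closure Y)ᶜ :=
    disjoint_compl_right_iff_subset.mpr subset_closure
  obtain ⟨z, hz⟩ := hne
  rcases hcov hz with h | h
  · left
    exact hS.subset_left_of_subset_union hY isClosed_closure.isOpen_compl hdis hcov ⟨z, hz, h⟩
  · right
    have := hS.subset_right_of_subset_union hY isClosed_closure.isOpen_compl hdis hcov ⟨z, hz, h⟩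
    intro w hw hw2
    exact this hw (subset_closure hw2)

lemma per_int (C : CTab) (i : C.ι) (hc : C.closed i) (u : ℝ) (m : ℤ) :
    C.g i (u + m * C.P i) = C.g i u := by
  have hp : Function.Periodic (C.g i) (C.P i) := fun u => (C.per i hc).2 u
  have := hp.int_mul m u
  exact this

lemma ee_per (C : CTab) (i : C.ι) (hc : C.closed i) (u : ℝ) (m : ℤ) :
    ee (u + m * C.P i) = ee u := by
  obtain ⟨k, hk⟩ := (C.per i hc).1
  rw [ee_eq_ee_iff]
  have h1 : u + m * C.P i - u = (m * k : ℤ) * (2 * Real.pi) := by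
    unfold CTab.P
    rw [hk]; push_cast; ring
  rw [h1]
  exact Real.cos_int_mul_two_pi _

/-- Isolation. -/
lemma isol (C : CTab) (i : C.ι) (u0 ε1 : ℝ) (hu : C.A i ≤ u0 ∧ u0 < C.B i ∧ (¬C.closed i → C.A i < u0))
    (hε : 0 < ε1) : ∃ d > 0, ∀ z ∈ frontier C.Y, dist z (C.g i u0) < d →
      ∃ v, |v - u0| < ε1 ∧ C.g i v = z := by
  haveI := C.fin
  let U : ∀ j : C.ι, Set ℝ := fun j => {v | j = i ∧ ∃ m : ℤ, (C.closed i ∨ m = 0) ∧
    |v + m * C.P i - u0| < ε1}
  have hUo : ∀ j, IsOpen (U j) := by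
    intro j
    by_cases hj : j = i
    · have : U j = ⋃ m : ℤ, ⋃ (_ : C.closed i ∨ m = 0), {v | |v + m * C.P i - u0| < ε1} := by
        ext v
        simp only [U, mem_setOf_eq, mem_iUnion, hj, true_and]
        constructor
        · rintro ⟨m, h1, h2⟩; exact ⟨m, h1, h2⟩
        · rintro ⟨m, h1, h2⟩; exact ⟨m, h1, h2⟩
      rw [this]
      apply isOpen_iUnion; intro m
      apply isOpen_iUnion; intro _
      apply isOpen_lt <;> fun_prop
    · have : U j = ∅ := by
        ext v
        simp [U, hj]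
      rw [this]; exact isOpen_empty
  let K : Set ℂ := ⋃ j, C.g j '' (Icc (C.A j) (C.B j) \ U j)
  have hK : IsCompact K := by
    apply isCompact_iUnion
    intro j
    apply IsCompact.image
    · exact isCompact_Icc.diff (hUo j)
    · exact (C.crv j).continuous
  have hnot : C.g i u0 ∉ K := by
    intro hmem
    obtain ⟨j, hj⟩ := mem_iUnion.mp hmem
    obtain ⟨v, ⟨hv, hvU⟩, hgv⟩ := hj
    by_cases hcase : C.closed j ∧ v = C.B j
    · obtain ⟨hcl, hvB⟩ := hcase
      have h1 : C.g j (C.A j) = C.g j v := by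
        have := (C.per j hcl).2 (C.A j)
        rw [hvB]
        rw [show C.A j + (C.B j - C.A j) = C.B j by ring] at this
        exact this.symm
      have h2 := C.simple i j u0 (C.A j) hu ⟨le_refl _, (C.hAB j).le, fun _ => C.hAB j⟩
        (by
          have : C.g i u0 = C.g j (C.A j) := by rw [h1, hgv]
          exact this)
      obtain ⟨hij, huA⟩ := h2
      subst hij
      apply hvU
      refine ⟨rfl, -1, Or.inl hcl, ?_⟩
      have : v + ((-1 : ℤ) : ℝ) * C.P i - u0 = 0 := by
        unfold CTab.P; rw [hvB, huA]; push_cast; ring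
      rw [this]; simpa using hε
    · have h2 := C.simple i j u0 v hu ⟨hv.1, hv.2, fun hcl => lt_of_le_of_ne hv.2 (fun h => hcase ⟨hcl, h⟩)⟩
        hgv.symm
      obtain ⟨hij, huA⟩ := h2
      subst hij
      apply hvU
      refine ⟨rfl, 0, Or.inr rfl, ?_⟩
      rw [huA]; simpa using hε
  obtain ⟨d, hd, hball⟩ := Metric.isOpen_iff.mp hK.isClosed.isOpen_compl _ hnot
  refine ⟨d, hd, ?_⟩
  intro z hz hzd
  rw [C.bdry] at hz
  obtain ⟨j, hj⟩ := mem_iUnion.mp hz
  obtain ⟨v, hv, hgv⟩ := hj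
  have hzK : z ∉ K := hball hzd
  have hvU : v ∈ U j := by
    by_contra h
    exact hzK (mem_iUnion.mpr ⟨j, v, ⟨hv, h⟩, hgv⟩)
  obtain ⟨hji, m, hm, hlt⟩ := hvU
  subst hji
  refine ⟨v + m * C.P j, hlt, ?_⟩
  rcases hm with hm | hm
  · rw [per_int C j hm v m]; exact hgv
  · subst hm; simpa using hgv

/-- The main statement for a representative of the parameter. -/
lemma main (C : CTab) (i : C.ι) (u0 : ℝ)
    (hu : C.A i ≤ u0 ∧ u0 < C.B i ∧ (¬C.closed i → C.A i < u0)) (ε : ℝ) (hε : 0 < ε) :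
    ∃ δ : ℝ, 0 < δ ∧ ∀ z ∈ Metric.ball (C.g i u0) δ, ∃ v r : ℝ, |v - u0| < ε ∧ |r| < ε ∧
      z = C.g i v + r • ee v ∧ (0 < r → z ∈ C.Y) ∧ (r ≤ 0 → z ∉ C.Y) := by
  have hAB := C.hAB i
  -- choice of ε1
  obtain ⟨ε1, hε1, h1ε, h12, h1AB, h1n⟩ : ∃ ε1 > 0, ε1 ≤ ε ∧ ε1 ≤ 1 / 2 ∧ ε1 ≤ C.P i ∧
      (¬C.closed i → ε1 < u0 - C.A i ∧ ε1 < C.B i - u0) := by
    by_cases hc : C.closed i
    · refine ⟨min ε (min (1 / 2) (C.P i)), ?_, min_le_left _ _,
        (min_le_right _ _).trans (min_le_left _ _), (min_le_right _ _).trans (min_le_right _ _),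
        fun h => absurd hc h⟩
      have : 0 < C.P i := by unfold CTab.P; linarith
      positivity
    · have h1 : 0 < u0 - C.A i := by linarith [hu.2.2 hc]
      have h2 : 0 < C.B i - u0 := by linarith [hu.2.1]
      have h3 : 0 < C.P i := by unfold CTab.P; linarith
      refine ⟨min (min ε (min (1 / 2) (C.P i))) (min ((u0 - C.A i) / 2) ((C.B i - u0) / 2)), ?_,
        (min_le_left _ _).trans (min_le_left _ _),
        (min_le_left _ _).trans ((min_le_right _ _).trans (min_le_left _ _)),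
        (min_le_left _ _).trans ((min_le_right _ _).trans (min_le_right _ _)),
        fun _ => ⟨?_, ?_⟩⟩
      · have h4 : 0 < (u0 - C.A i) / 2 := by linarith
        have h5 : 0 < (C.B i - u0) / 2 := by linarith
        positivity
      · have := (min_le_right (min ε (min (1 / 2) (C.P i)))
          (min ((u0 - C.A i) / 2) ((C.B i - u0) / 2))).trans (min_le_left _ _)
        linarith
      · have := (min_le_right (min ε (min (1 / 2) (C.P i)))
          (min ((u0 - C.A i) / 2) ((C.B i - u0) / 2))).trans (min_le_right _ _)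
        linarith
  obtain ⟨d, hd, hiso⟩ := isol C i u0 ε1 hu hε1
  -- ε3
  obtain ⟨ε3, hε3, h3ε, h3d⟩ : ∃ ε3 > 0, ε3 ≤ ε ∧ ε3 ≤ d / 2 :=
    ⟨min ε (d / 2), by positivity, min_le_left _ _, min_le_right _ _⟩
  -- ε2
  obtain ⟨ε2, hε2, h21, hG2⟩ : ∃ ε2 > 0, ε2 < ε1 ∧ ∀ v, |v - u0| ≤ ε2 →
      dist (C.g i v) (C.g i u0) < ε3 / 2 := by
    have hcont : ContinuousAt (C.g i) u0 := (C.crv i).continuous.continuousAt
    obtain ⟨η, hη, hη2⟩ := Metric.continuousAt_iff.mp hcont (ε3 / 2) (by positivity)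
    refine ⟨min (η / 2) (ε1 / 2), by positivity, ?_, ?_⟩
    · have := min_le_right (η / 2) (ε1 / 2); linarith
    · intro v hv
      apply hη2
      rw [Real.dist_eq]
      have := min_le_left (η / 2) (ε1 / 2); linarith
  have hR := C.le_R i
  have hr0 := C.r0_pos
  -- points of the curve near u0 are boundary points
  have hfront : ∀ v, |v - u0| < ε1 → C.g i v ∈ frontier C.Y := by
    intro v hv
    rw [abs_lt] at hv
    rw [C.bdry]
    apply mem_iUnion.mpr
    refine ⟨i, ?_⟩
    by_cases hc : C.closed i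
    · unfold CTab.P at h1AB
      rcases lt_or_ge v (C.A i) with hlt | hge
      · refine ⟨v + C.P i, ⟨?_, ?_⟩, ?_⟩
        · unfold CTab.P; linarith [hu.1]
        · unfold CTab.P; linarith
        · have := per_int C i hc v 1
          simpa using this
      · rcases le_or_gt v (C.B i) with hle | hgt
        · exact ⟨v, ⟨hge, hle⟩, rfl⟩
        · refine ⟨v - C.P i, ⟨?_, ?_⟩, ?_⟩
          · unfold CTab.P; linarith
          · unfold CTab.P; linarith [hu.2.1]
          · have := per_int C i hc v (-1)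
            simpa [sub_eq_add_neg] using this
    · have := h1n hc
      exact ⟨v, ⟨by linarith, by linarith⟩, rfl⟩
  -- points off the curve are not boundary points
  have hoff : ∀ v r : ℝ, |v - u0| < ε2 → |r| < ε3 → r ≠ 0 →
      C.g i v + r • ee v ∉ frontier C.Y := by
    intro v r hv hr hr0' hmem
    have hdist : dist (C.g i v + r • ee v) (C.g i u0) < d := by
      calc dist (C.g i v + r • ee v) (C.g i u0)
          ≤ dist (C.g i v + r • ee v) (C.g i v) + dist (C.g i v) (C.g i u0) := dist_triangle _ _ _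
        _ = |r| + dist (C.g i v) (C.g i u0) := by
            rw [dist_eq_norm, add_sub_cancel_left, norm_smul, norm_ee, mul_one, Real.norm_eq_abs]
        _ < ε3 + ε3 / 2 := add_lt_add hr (hG2 v hv.le)
        _ ≤ d := by linarith
    obtain ⟨v', hv', hgv'⟩ := hiso _ hmem hdist
    have h1 : C.g i v' - C.g i v = r • ee v := by rw [hgv']; ring
    have h2 : dt (tt v) (C.g i v' - C.g i v) = 0 := by
      rw [h1, dt_smul_right, dt_comm, dt_ee_tt]; simp
    have h3 : v' = v := by
      apply inj (C.crv i) C.r0 hr0 hR v v' _ h2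
      rw [abs_lt] at hv hv'
      rw [abs_le]
      constructor <;> linarith
    rw [h3, sub_self] at h1
    have h4 := smul_eq_zero.mp h1.symm
    rcases h4 with h4 | h4
    · exact hr0' h4
    · exact ee_ne_zero v h4
  -- side
  obtain ⟨ε', hε', hside⟩ := C.side i u0 hu
  have hcontF : Continuous (fun p : ℝ × ℝ => C.g i p.1 + p.2 • ee p.1) := by
    have h1 : Continuous (C.g i) := (C.crv i).continuous
    have h2 := continuous_ee
    exact (h1.comp continuous_fst).add (continuous_snd.smul (h2.comp continuous_fst))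
  have hpos : ∀ v r : ℝ, |v - u0| < ε2 → 0 < r → r < ε3 → C.g i v + r • ee v ∈ C.Y := by
    let S : Set ℂ := (fun p : ℝ × ℝ => C.g i p.1 + p.2 • ee p.1) ''
      (Ioo (u0 - ε2) (u0 + ε2) ×ˢ Ioo 0 ε3)
    have hS : IsPreconnected S :=
      (((convex_Ioo _ _).prod (convex_Ioo _ _)).isPreconnected).image _ hcontF.continuousOn
    have hdisj : ∀ z ∈ S, z ∉ frontier C.Y := by
      rintro z ⟨⟨v, r⟩, ⟨hv, hr⟩, rfl⟩
      simp only at hv hr
      exact hoff v r (by rw [abs_lt]; exact ⟨by linarith [hv.1], by linarith [hv.2]⟩)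
        (by rw [abs_lt]; exact ⟨by linarith [hr.1], hr.2⟩) hr.1.ne'
    have hpt : ∃ r1 : ℝ, 0 < r1 ∧ r1 < ε3 ∧ r1 < ε' :=
      ⟨min ε3 ε' / 2, by positivity, by have := min_le_left ε3 ε'; have h5 : 0 < min ε3 ε' := by positivity
                                        linarith,
        by have := min_le_right ε3 ε'; have h5 : 0 < min ε3 ε' := by positivity
           linarith⟩
    obtain ⟨r1, hr1, hr13, hr1'⟩ := hpt
    have hmemS : C.g i u0 + r1 • ee u0 ∈ S :=
      ⟨(u0, r1), ⟨⟨by simp only; linarith, by simp only; linarith⟩, ⟨hr1, hr13⟩⟩, rfl⟩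
    have hmemY : C.g i u0 + r1 • ee u0 ∈ C.Y := (hside r1 ⟨hr1, hr1'⟩).1
    rcases preconn_cases C.isOpen hS hdisj ⟨_, hmemS⟩ with h | h
    · intro v r hv hr hr3
      apply h
      rw [abs_lt] at hv
      exact ⟨(v, r), ⟨⟨by simp only; linarith, by simp only; linarith⟩, ⟨hr, hr3⟩⟩, rfl⟩
    · exact absurd hmemY (h _ hmemS)
  have hneg : ∀ v r : ℝ, |v - u0| < ε2 → r < 0 → -ε3 < r → C.g i v + r • ee v ∉ C.Y := by
    let S : Set ℂ := (fun p : ℝ × ℝ => C.g i p.1 + p.2 • ee p.1) ''
      (Ioo (u0 - ε2) (u0 + ε2) ×ˢ Ioo (-ε3) 0)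
    have hS : IsPreconnected S :=
      (((convex_Ioo _ _).prod (convex_Ioo _ _)).isPreconnected).image _ hcontF.continuousOn
    have hdisj : ∀ z ∈ S, z ∉ frontier C.Y := by
      rintro z ⟨⟨v, r⟩, ⟨hv, hr⟩, rfl⟩
      simp only at hv hr
      exact hoff v r (by rw [abs_lt]; exact ⟨by linarith [hv.1], by linarith [hv.2]⟩)
        (by rw [abs_lt]; exact ⟨hr.1, by linarith [hr.2]⟩) hr.2.ne
    have hpt : ∃ r1 : ℝ, 0 < r1 ∧ r1 < ε3 ∧ r1 < ε' :=
      ⟨min ε3 ε' / 2, by positivity, by have := min_le_left ε3 ε'; have h5 : 0 < min ε3 ε' := by positivity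
                                        linarith,
        by have := min_le_right ε3 ε'; have h5 : 0 < min ε3 ε' := by positivity
           linarith⟩
    obtain ⟨r1, hr1, hr13, hr1'⟩ := hpt
    have hmemS : C.g i u0 - r1 • ee u0 ∈ S :=
      ⟨(u0, -r1), ⟨⟨by simp only; linarith, by simp only; linarith⟩, ⟨by simp only; linarith,
        by simp only; linarith⟩⟩, by simp [sub_eq_add_neg]⟩
    have hmemY : C.g i u0 - r1 • ee u0 ∉ C.Y := (hside r1 ⟨hr1, hr1'⟩).2
    rcases preconn_cases C.isOpen hS hdisj ⟨_, hmemS⟩ with h | h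
    · exact absurd (h hmemS) hmemY
    · intro v r hv hr hr3
      apply h
      rw [abs_lt] at hv
      exact ⟨(v, r), ⟨⟨by simp only; linarith, by simp only; linarith⟩, ⟨hr3, hr⟩⟩, rfl⟩
  -- foot point: signs
  have hs1 : 0 < dt (tt (u0 - ε2)) (C.g i u0 - C.g i (u0 - ε2)) := by
    have := mono (C.crv i) C.r0 hr0 hR (u0 - ε2) (u0 - ε2) u0 (by simp)
      (by rw [abs_le]; constructor <;> linarith) (by linarith)
    rw [dt_sub_right]; linarith
  have hs2 : dt (tt (u0 + ε2)) (C.g i u0 - C.g i (u0 + ε2)) < 0 := by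
    have := mono (C.crv i) C.r0 hr0 hR (u0 + ε2) u0 (u0 + ε2)
      (by rw [abs_le]; constructor <;> linarith) (by simp) (by linarith)
    rw [dt_sub_right]; linarith
  have hev1 : ∀ᶠ z in 𝓝 (C.g i u0), 0 < dt (tt (u0 - ε2)) (z - C.g i (u0 - ε2)) := by
    have hc : Continuous (fun z : ℂ => dt (tt (u0 - ε2)) (z - C.g i (u0 - ε2))) :=
      continuous_dt continuous_const (continuous_id.sub continuous_const)
    exact hc.continuousAt.eventually (lt_mem_nhds hs1)
  have hev2 : ∀ᶠ z in 𝓝 (C.g i u0), dt (tt (u0 + ε2)) (z - C.g i (u0 + ε2)) < 0 := by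
    have hc : Continuous (fun z : ℂ => dt (tt (u0 + ε2)) (z - C.g i (u0 + ε2))) :=
      continuous_dt continuous_const (continuous_id.sub continuous_const)
    exact hc.continuousAt.eventually (gt_mem_nhds hs2)
  obtain ⟨δ1, hδ1, hball⟩ := Metric.eventually_nhds_iff.mp (hev1.and hev2)
  refine ⟨min δ1 (ε3 / 2), by positivity, ?_⟩
  intro z hz
  rw [Metric.mem_ball] at hz
  obtain ⟨hz1, hz2⟩ := hball (lt_of_lt_of_le hz (min_le_left _ _))
  have hz3 : dist z (C.g i u0) < ε3 / 2 := lt_of_lt_of_le hz (min_le_right _ _)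
  have hcontv : Continuous (fun v : ℝ => dt (tt v) (z - C.g i v)) :=
    continuous_dt continuous_tt (continuous_const.sub (C.crv i).continuous)
  have hivt := intermediate_value_Ioo' (show u0 - ε2 ≤ u0 + ε2 by linarith) hcontv.continuousOn
  obtain ⟨v, hv, hv0⟩ := hivt ⟨hz2, hz1⟩
  have hvabs : |v - u0| < ε2 := by rw [abs_lt]; exact ⟨by linarith [hv.1], by linarith [hv.2]⟩
  have hfr := frame v (z - C.g i v)
  simp only at hv0
  rw [hv0, zero_smul, add_zero] at hfr
  set r := dt (ee v) (z - C.g i v) with hrdef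
  have hzr : z = C.g i v + r • ee v := by rw [← hfr]; ring
  have hrabs : |r| < ε3 := by
    have h1 : |r| ≤ ‖z - C.g i v‖ := by
      have := abs_dt_le (ee v) (z - C.g i v)
      rw [norm_ee, one_mul] at this
      exact this
    have h2 : ‖z - C.g i v‖ ≤ dist z (C.g i u0) + dist (C.g i v) (C.g i u0) := by
      rw [← dist_eq_norm]
      exact dist_triangle_right _ _ _
    have h3 := hG2 v hvabs.le
    linarith
  refine ⟨v, r, by linarith, by linarith, hzr, ?_, ?_⟩
  · intro hr
    rw [hzr]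
    exact hpos v r hvabs hr (lt_of_abs_lt hrabs)
  · intro hr
    rcases hr.lt_or_eq with hr | hr
    · rw [hzr]
      exact hneg v r hvabs hr (neg_lt_of_abs_lt hrabs)
    · rw [hzr, hr, zero_smul, add_zero]
      have := hfront v (by linarith)
      rw [C.isOpen.frontier_eq] at this
      exact this.2

theorem thm (C : CTab) : G_LSIDE C := by
  intro i u0 hu ε hε
  by_cases hc : C.closed i
  · -- shift
    have hP : 0 < C.P i := by unfold CTab.P; linarith [C.hAB i]
    obtain ⟨m, hm, -⟩ := existsUnique_add_zsmul_mem_Ico hP u0 (C.A i)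
    simp only [zsmul_eq_mul] at hm
    have hreg : C.A i ≤ u0 + m * C.P i ∧ u0 + m * C.P i < C.B i ∧
        (¬C.closed i → C.A i < u0 + m * C.P i) := by
      refine ⟨hm.1, ?_, fun h => absurd hc h⟩
      have := hm.2
      unfold CTab.P at this ⊢
      linarith
    obtain ⟨δ, hδ, h⟩ := main C i _ hreg ε hε
    rw [per_int C i hc u0 m] at h
    refine ⟨δ, hδ, ?_⟩
    intro z hz
    obtain ⟨v, r, h1, h2, h3, h4, h5⟩ := h z hz
    refine ⟨v - m * C.P i, r, ?_, h2, ?_, h4, h5⟩
    · rw [show v - m * C.P i - u0 = v - (u0 + m * C.P i) by ring]; exact h1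
    · have h6 := per_int C i hc (v - m * C.P i) m
      have h7 := ee_per C i hc (v - m * C.P i) m
      rw [sub_add_cancel] at h6 h7
      rw [← h6, ← h7]; exact h3
  · rcases hu with hu | hu
    · exact absurd hu hc
    · exact main C i u0 ⟨hu.1.le, hu.2, fun _ => hu.1⟩ ε hε

end Pool.Agent.Helper42.DB.PkLSIDE
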